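import Pool.Agent.H577.Kim.Stm

set_option autoImplicit false

/-!
LIFT (helper215 for helper577): places with values in the algebraic closure of `ℚ_[l]` fixed by lifts
of all automorphisms.
-/

open scoped Pointwise TensorProduct Topology Polynomial NNReal

noncomputable section

namespace Pool.Agent.H215.Kim577

open Y680 Y680.V Polynomial
open Y680.W (GG Gam Qb map_Qb)
open Pool.Agent.H577.Kim

/-- extension of embeddings -/
theorem exists_ext {R Ω C : Type} [CommRing R] [IsDomain R] [Field Ω] [Field C] [IsAlgClosed C]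
    (i : R →+* Ω) (j : R →+* C) (hi : Function.Injective i) (hj : Function.Injective j)
    (halg : ∀ x : Ω, ∃ P : R[X], P ≠ 0 ∧ eval₂ i x P = 0) :
    ∃ φ : Ω →+* C, ∀ r, φ (i r) = j r := by
  let : Algebra R Ω := i.toAlgebra
  let : Algebra R C := j.toAlgebra
  have hi' : Function.Injective (algebraMap R Ω) := hi
  have hj' : Function.Injective (algebraMap R C) := hj
  have : FaithfulSMul R Ω := (faithfulSMul_iff_algebraMap_injective R Ω).2 hi'
  have : FaithfulSMul R C := (faithfulSMul_iff_algebraMap_injective R C).2 hj'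
  have : Algebra.IsAlgebraic R Ω := ⟨fun x => by
    obtain ⟨P, h1, h2⟩ := halg x
    exact ⟨P, h1, h2⟩⟩
  let φ : Ω →ₐ[R] C := IsAlgClosed.lift
  exact ⟨φ, fun r => φ.commutes r⟩

/-- lifts of automorphisms along normal extensions -/
theorem exists_lift {F E C : Type} [Field F] [Field E] [Field C] [Algebra F E] [Normal F E]
    (φ : E →+* C) (σ : C ≃+* C)
    (h : ∀ x : F, σ (φ (algebraMap F E x)) = φ (algebraMap F E x)) :
    ∃ g : E ≃ₐ[F] E, ∀ x, φ (g x) = σ (φ x) := by
  let : Algebra E C := φ.toAlgebra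
  let : Algebra F C := (φ.comp (algebraMap F E)).toAlgebra
  have : IsScalarTower F E C := IsScalarTower.of_algebraMap_eq fun x => rfl
  let σ' : C ≃ₐ[F] C := { σ with commutes' := fun x => h x }
  exact ⟨σ'.restrictNormal E, fun x => σ'.restrictNormal_commutes E x⟩

/-- extensionality for places -/
theorem place_ext {Ω C : Type} [Field Ω] [Field C] {w w' : Place Ω C} (h : w.O = w'.O)
    (h2 : ∀ (x : Ω) (h1 : x ∈ w.O) (h1' : x ∈ w'.O), w.φ ⟨x, h1⟩ = w'.φ ⟨x, h1'⟩) : w = w' := by
  obtain ⟨O, φ, ker⟩ := w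
  obtain ⟨O', φ', ker'⟩ := w'
  change O = O' at h
  subst h
  have : φ = φ' := by
    ext x
    exact h2 x x.2 x.2
  subst this
  rfl

theorem nonunits_iff {Ω : Type} [Field Ω] (O : ValuationSubring Ω) (x : O) :
    IsLocalRing.residue O x = 0 ↔ (x : Ω) ∈ O.nonunits := by
  rw [IsLocalRing.residue_eq_zero_iff, ValuationSubring.mem_nonunits_iff_exists_mem_maximalIdeal]
  constructor
  · intro h
    exact ⟨x.2, h⟩
  · rintro ⟨_, h⟩
    exact h

/-- the residue map of a place -/
theorem exists_res (c : Option Qb) (O : ValuationSubring Om) (hO : W.IsPlace c O) :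
    ∃ res : O →+* Qb, (∀ a : Qb, ∀ h : (a : Om) ∈ O, res ⟨a, h⟩ = a) ∧
      ∀ x : O, res x = 0 ↔ (x : Om) ∈ O.nonunits := by
  have hle : ∀ a : Qb, (a : Om) ∈ O := fun a => Y680.W.Qb_le hO.1 a.2
  let j : Qb →+* O := (algebraMap Qb Om).codRestrict O.toSubring hle
  have hj : ∀ a : Qb, ((j a : O) : Om) = a := fun a => rfl
  let r : Qb →+* IsLocalRing.ResidueField O := (IsLocalRing.residue O).comp j
  have hr : Function.Bijective r := by
    refine ⟨r.injective, fun y => ?_⟩
    obtain ⟨x, rfl⟩ := IsLocalRing.residue_surjective (R := O) y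
    obtain ⟨c', hc'⟩ := W.t_VAL c O hO x x.2
    refine ⟨c', ?_⟩
    have h1 : IsLocalRing.residue O (x - j c') = 0 := by
      rw [nonunits_iff]
      exact hc'
    rw [map_sub, sub_eq_zero] at h1
    exact h1.symm
  let e : Qb ≃+* IsLocalRing.ResidueField O := RingEquiv.ofBijective r hr
  refine ⟨(e.symm : IsLocalRing.ResidueField O →+* Qb).comp (IsLocalRing.residue O), ?_, ?_⟩
  · intro a h
    have h1 : e a = IsLocalRing.residue O ⟨a, h⟩ := rfl
    change e.symm (IsLocalRing.residue O ⟨a, h⟩) = a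
    rw [← h1, e.symm_apply_apply]
  · intro x
    change e.symm (IsLocalRing.residue O x) = 0 ↔ _
    rw [map_eq_zero_iff e.symm e.symm.injective]
    exact nonunits_iff O x

theorem Qb_alg : Algebra.IsAlgebraic ℚ Qb := (algebraicClosure.isAlgClosure ℚ Om).isAlgebraic

theorem Qb_ac : IsAlgClosed Qb := (algebraicClosure.isAlgClosure ℚ Om).isAlgClosed

theorem Qb_normal : Normal ℚ Qb := by
  have := Qb_alg
  have := Qb_ac
  exact normal_iff.2 fun x =>
    ⟨(Algebra.IsAlgebraic.isAlgebraic x).isIntegral, IsAlgClosed.splits _⟩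

/-- Case A -/
theorem lift_A (l : ℕ) [Fact l.Prime] (ι : Qb →+* AlgebraicClosure ℚ_[l]) (z : Option ℚ_[l])
    (c : Option Qb) (hc : c.map ι = z.map (algebraMap ℚ_[l] (AlgebraicClosure ℚ_[l]))) :
    ∃ w ∈ above (Om := Om) ι (z.map (algebraMap ℚ_[l] (AlgebraicClosure ℚ_[l]))),
      ∀ σ : AlgebraicClosure ℚ_[l] ≃ₐ[ℚ_[l]] AlgebraicClosure ℚ_[l], ∃ g : GG,
        (∀ a b : Qb, (b : Om) = g (a : Om) → σ (ι a) = ι b) ∧
        w.move g (σ : AlgebraicClosure ℚ_[l] →+* AlgebraicClosure ℚ_[l]) = w := by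
  obtain ⟨O, hO⟩ := W.t_EX c
  obtain ⟨res, hres1, hres0⟩ := exists_res c O hO
  have hle : ∀ a : Qb, (a : Om) ∈ O := fun a => Y680.W.Qb_le hO.1 a.2
  let w : Place Om (AlgebraicClosure ℚ_[l]) :=
    { O := O
      φ := ι.comp res
      ker := fun x => by
        change ι (res x) = 0 ↔ _
        rw [map_eq_zero_iff ι ι.injective]
        exact hres0 x }
  refine ⟨w, ⟨fun x => ⟨hle x, ?_⟩, fun hz => ?_, fun a ha => ?_⟩, fun σ => ?_⟩
  · change ι (res ⟨x, _⟩) = ι x
    rw [hres1]
  · rw [← hc] at hz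
    cases c with
    | none => exact hO.2
    | some a => simp at hz
  · rw [← hc] at ha
    cases c with
    | none => simp at ha
    | some a' =>
      rw [Option.map_some, Option.some.injEq] at ha
      have h1 : (tt Om) - (a' : Om) ∈ O.nonunits := hO.2
      have h2 : (tt Om) - (a' : Om) ∈ O := O.nonunits_subset h1
      have h3 : tt Om ∈ O := by
        have := add_mem h2 (hle a')
        rwa [sub_add_cancel] at this
      refine ⟨h3, ?_⟩
      change ι (res ⟨tt Om, h3⟩) = a
      rw [← ha]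
      congr 1
      have h4 : (⟨tt Om, h3⟩ : O) = ⟨tt Om - (a' : Om), h2⟩ + ⟨(a' : Om), hle a'⟩ :=
        Subtype.ext (sub_add_cancel _ _).symm
      rw [h4, map_add, hres1, (hres0 _).2 h1, zero_add]
  · have := Qb_normal
    obtain ⟨s, hs⟩ := exists_lift (F := ℚ) (E := Qb) ι (σ : AlgebraicClosure ℚ_[l] ≃+* AlgebraicClosure ℚ_[l])
      (fun x => by simp)
    have hs' : ∀ x : Qb, ι (s x) = σ (ι x) := hs
    obtain ⟨g0, hg0⟩ := W.t_SURJ s
    have hgc : W.gpt g0 c = c := by
      cases c with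
      | none => rfl
      | some a' =>
        change some (⟨g0 a', map_Qb g0 a'.2⟩ : Qb) = some a'
        congr 1
        have h1 : (⟨g0 a', map_Qb g0 a'.2⟩ : Qb) = s a' := Subtype.ext (hg0 a')
        rw [h1]
        apply ι.injective
        rw [hs']
        cases z with
        | none => simp at hc
        | some z0 =>
          rw [Option.map_some, Option.map_some, Option.some.injEq] at hc
          rw [hc, AlgEquiv.commutes]
    have hP : W.IsPlace c (g0 • O) := by
      have := W.isPlace_smul g0 hO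
      rwa [hgc] at this
    obtain ⟨δ, hδ, -, hδO⟩ := W.f_PLACE c 1 (W.loc c) one_pos (pow_one _) _ _ hP hO
    refine ⟨δ * g0, ?_, ?_⟩
    · intro a b hab
      have h1 : (b : Om) = s a := by
        rw [hab, AlgEquiv.mul_apply, hg0]
        exact hδ _ (s a).2
      have h2 : b = s a := Subtype.ext h1
      rw [h2, hs']
    · have hgO : (δ * g0) • O = O := by rw [mul_smul]; exact hδO
      refine place_ext hgO fun x h1 h1' => ?_
      -- the values agree
      have hx' : (δ * g0)⁻¹ x ∈ O := by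
        have h2 : x ∈ (δ * g0) • O := h1
        exact (ValuationSubring.mem_pointwise_smul_iff_inv_smul_mem).1 h2
      change σ (ι (res ⟨(δ * g0)⁻¹ x, _⟩)) = ι (res ⟨x, h1'⟩)
      set c' : Qb := res ⟨x, h1'⟩ with hc'
      have hxc : (x - (c' : Om)) ∈ O.nonunits := by
        have h3 : res (⟨x, h1'⟩ - ⟨(c' : Om), hle c'⟩) = 0 := by
          rw [map_sub, hres1, ← hc', sub_self]
        exact (hres0 _).1 h3
      let b' : Qb := ⟨(δ * g0)⁻¹ (c' : Om), map_Qb _ c'.2⟩
      have hb' : (b' : Om) = (δ * g0)⁻¹ (c' : Om) := rfl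
      have h4 : (δ * g0)⁻¹ x - (b' : Om) ∈ O.nonunits := by
        rw [hb', ← map_sub]
        have h5 := (W.smul_mem_nonunits (δ * g0)⁻¹ (x := x - (c' : Om)) (v := O)).2 hxc
        have h6 : (δ * g0)⁻¹ • O = O := by
          rw [inv_smul_eq_iff, hgO]
        rwa [h6] at h5
      have h7 : res ⟨(δ * g0)⁻¹ x, hx'⟩ = b' := by
        have h8 : res (⟨(δ * g0)⁻¹ x, hx'⟩ - ⟨(b' : Om), hle b'⟩) = 0 := (hres0 _).2 h4
        rw [map_sub, hres1, sub_eq_zero] at h8
        exact h8
      rw [h7]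
      have h9 : (c' : Om) = (δ * g0) (b' : Om) := by
        rw [hb', ← AlgEquiv.mul_apply, mul_inv_cancel]
        rfl
      have h10 : (c' : Om) = s b' := by
        rw [h9, AlgEquiv.mul_apply, hg0]
        exact hδ _ (s b').2
      have h11 : c' = s b' := Subtype.ext h10
      rw [h11, hs']

/-- Case B -/
theorem lift_B (l : ℕ) [Fact l.Prime] (ι : Qb →+* AlgebraicClosure ℚ_[l]) (z0 : ℚ_[l])
    (hz : ∀ a : Qb, ι a ≠ algebraMap ℚ_[l] (AlgebraicClosure ℚ_[l]) z0) :
    ∃ w ∈ above (Om := Om) ι (some (algebraMap ℚ_[l] (AlgebraicClosure ℚ_[l]) z0)),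
      ∀ σ : AlgebraicClosure ℚ_[l] ≃ₐ[ℚ_[l]] AlgebraicClosure ℚ_[l], ∃ g : GG,
        (∀ a b : Qb, (b : Om) = g (a : Om) → σ (ι a) = ι b) ∧
        w.move g (σ : AlgebraicClosure ℚ_[l] →+* AlgebraicClosure ℚ_[l]) = w := by
  set y : AlgebraicClosure ℚ_[l] := algebraMap ℚ_[l] (AlgebraicClosure ℚ_[l]) z0 with hy
  have := Qb_ac
  have key : ∀ (D : Type) [Field D] (κ : Qb →+* D) (u : D), (∀ a : Qb, κ a ≠ u) →
      Function.Injective (eval₂RingHom κ u) := by
    intro D _ κ u hu
    rw [injective_iff_map_eq_zero]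
    intro P hP
    by_contra hne
    have hsp : P.Splits := IsAlgClosed.splits P
    rw [coe_eval₂RingHom] at hP
    have h1 := hsp.eq_prod_roots
    rw [h1, eval₂_mul, eval₂_C, eval₂_multiset_prod, mul_eq_zero] at hP
    rcases hP with h2 | h2
    · rw [map_eq_zero_iff κ κ.injective, leadingCoeff_eq_zero] at h2
      exact hne h2
    · rw [Multiset.prod_eq_zero_iff, Multiset.mem_map] at h2
      obtain ⟨q, hq, hq0⟩ := h2
      rw [Multiset.mem_map] at hq
      obtain ⟨a, -, rfl⟩ := hq
      rw [eval₂_sub, eval₂_X, eval₂_C, sub_eq_zero] at hq0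
      exact hu a hq0.symm
  have htt : ∀ a : Qb, (algebraMap Qb Om) a ≠ tt Om := by
    intro a ha
    apply Y680.W.tt_notMem
    have h1 : (a : Om) = Y680.W.tt := ha
    rw [← h1]
    exact a.2
  have hi := key Om (algebraMap Qb Om) (tt Om) htt
  have hj := key _ ι y hz
  have halg : ∀ x : Om, ∃ P : (Qb[X])[X], P ≠ 0 ∧ eval₂ (eval₂RingHom (algebraMap Qb Om) (tt Om)) x P = 0 := by
    intro x
    have h1 : IsAlgebraic (RatFunc ℚ) x := Algebra.IsAlgebraic.isAlgebraic x
    have h2 : IsAlgebraic ℚ[X] x := (IsFractionRing.isAlgebraic_iff ℚ[X] (RatFunc ℚ) Om).2 h1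
    obtain ⟨P, hP, hP0⟩ := h2
    refine ⟨P.map (mapRingHom (algebraMap ℚ Qb)), ?_, ?_⟩
    · rw [Ne, Polynomial.map_eq_zero_iff (by
        rw [coe_mapRingHom]
        exact Polynomial.map_injective _ (algebraMap ℚ Qb).injective)]
      exact hP
    · rw [eval₂_map]
      have h3 : (eval₂RingHom (algebraMap Qb Om) (tt Om)).comp (mapRingHom (algebraMap ℚ Qb)) =
          algebraMap ℚ[X] Om := by
        ext q
        · simp
        · simp only [RingHom.comp_apply, coe_mapRingHom, map_X, coe_eval₂RingHom, eval₂_X]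
          exact (Y680.W.algMap_X).symm
      rw [h3]
      exact hP0
  obtain ⟨φ, hφ⟩ := exists_ext (eval₂RingHom (algebraMap Qb Om) (tt Om)) (eval₂RingHom ι y) hi hj halg
  have hφι : ∀ a : Qb, φ (a : Om) = ι a := by
    intro a
    have := hφ (Polynomial.C a)
    simpa using this
  have hφt : φ (tt Om) = y := by
    have := hφ Polynomial.X
    simpa using this
  let w : Place Om (AlgebraicClosure ℚ_[l]) :=
    { O := ⊤
      φ := φ.comp (⊤ : ValuationSubring Om).subtype
      ker := fun x => by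
        change φ (x : Om) = 0 ↔ _
        rw [map_eq_zero_iff φ φ.injective, ValuationSubring.mem_nonunits_iff_or]
        constructor
        · intro h
          exact Or.inl h
        · rintro (h | h)
          · exact h
          · exact absurd (ValuationSubring.mem_top _) h }
  refine ⟨w, ⟨fun x => ⟨ValuationSubring.mem_top _, hφι x⟩, fun h => by simp at h, fun a ha => ?_⟩,
    fun σ => ?_⟩
  · refine ⟨ValuationSubring.mem_top _, ?_⟩
    change φ (tt Om) = a
    rw [hφt]
    exact Option.some.inj ha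
  · have hfix : ∀ x : RatFunc ℚ, (σ : AlgebraicClosure ℚ_[l] ≃+* AlgebraicClosure ℚ_[l])
        (φ (algebraMap (RatFunc ℚ) Om x)) = φ (algebraMap (RatFunc ℚ) Om x) := by
      intro x
      have h1 : ((σ : AlgebraicClosure ℚ_[l] →+* AlgebraicClosure ℚ_[l]).comp
          (φ.comp (algebraMap (RatFunc ℚ) Om))) = φ.comp (algebraMap (RatFunc ℚ) Om) := by
        apply IsFractionRing.ringHom_ext (A := ℚ[X])
        intro P
        have h2 : (((σ : AlgebraicClosure ℚ_[l] →+* AlgebraicClosure ℚ_[l]).comp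
          (φ.comp (algebraMap (RatFunc ℚ) Om))).comp (algebraMap ℚ[X] (RatFunc ℚ))) =
            (φ.comp (algebraMap (RatFunc ℚ) Om)).comp (algebraMap ℚ[X] (RatFunc ℚ)) := by
          ext q
          · simp
          · simp only [RingHom.comp_apply, RatFunc.algebraMap_X]
            have h3 : φ (algebraMap (RatFunc ℚ) Om RatFunc.X) = y := hφt
            rw [h3]
            change σ y = y
            rw [hy, AlgEquiv.commutes]
        exact congrArg (fun f : ℚ[X] →+* AlgebraicClosure ℚ_[l] => f P) h2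
      exact congrArg (fun f : RatFunc ℚ →+* AlgebraicClosure ℚ_[l] => f x) h1
    obtain ⟨g, hg⟩ := exists_lift (F := RatFunc ℚ) (E := Om) φ
      (σ : AlgebraicClosure ℚ_[l] ≃+* AlgebraicClosure ℚ_[l]) hfix
    have hg' : ∀ x : Om, φ (g x) = σ (φ x) := hg
    refine ⟨g, ?_, ?_⟩
    · intro a b hab
      rw [← hφι a, ← hφι b, hab, hg']
    · have hgO : g • (⊤ : ValuationSubring Om) = ⊤ := by
        ext x
        rw [ValuationSubring.mem_pointwise_smul_iff_inv_smul_mem]
        exact ⟨fun _ => ValuationSubring.mem_top _, fun _ => ValuationSubring.mem_top _⟩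
      refine place_ext hgO fun x h1 h1' => ?_
      change σ (φ (g⁻¹ x)) = φ x
      rw [← hg', ← AlgEquiv.mul_apply, mul_inv_cancel]
      rfl

theorem lift : S_LIFT := by
  intro l _ ι z
  cases z with
  | none => exact lift_A l ι none none rfl
  | some z0 =>
    by_cases h : ∃ a : Qb, ι a = algebraMap ℚ_[l] (AlgebraicClosure ℚ_[l]) z0
    · obtain ⟨a, ha⟩ := h
      exact lift_A l ι (some z0) (some a) (by rw [Option.map_some, Option.map_some, ha])
    · exact lift_B l ι z0 (fun a ha => h ⟨a, ha⟩)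

end Pool.Agent.H215.Kim577
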